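import Pool.Agent.H74.MRW.Def

/-!
# MWK: the branch vertices
-/

set_option autoImplicit false

namespace Pool.MRW

open Finset
open scoped Classical

theorem prd_01 {V : Type} (π : V → ℝ) (D : ℝ) (R n : ℕ) (y : V) (p : ℕ → V) :
    prd π D R n y p = 0 ∨ prd π D R n y p = 1 := by
  unfold prd
  split_ifs
  · exact Or.inr rfl
  · exact Or.inl rfl

theorem t_mwk (hLIN : LINStmt) (hWEX : WEXStmt) (hREC : RECStmt) (hBAD : BADStmt)
    (hEQP : EQPStmt) : MWKStmt := by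
  intro V _ P π hP k c R t D c₁ τ ε K v z hD hπ hR hRt hc₁ hτ hε hK h1 h2 h3 h4
  obtain ⟨L, hL⟩ : ∃ L, L = (c + 2) * R := ⟨_, rfl⟩
  obtain ⟨w, hw⟩ : ∃ w : Fin k → ℕ, w = fun j : Fin k => ((j : ℕ) + 1) * ((c + 6) * t) := ⟨_, rfl⟩
  obtain ⟨T, hT⟩ : ∃ T, T = (k + 1) * (c + 6) * t := ⟨_, rfl⟩
  rw [← hT] at h3
  have hLt : L ≤ (c + 2) * t := by rw [hL]; exact Nat.mul_le_mul_left _ hRt
  have hct : (c + 6) * t = (c + 2) * t + 4 * t := by ring
  -- the windows are separated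
  have hwij : ∀ i j : Fin k, i < j → w i + (c + 6) * t ≤ w j := by
    intro i j hij
    rw [hw]
    have h5 : (i : ℕ) + 1 ≤ j := hij
    calc ((i : ℕ) + 1) * ((c + 6) * t) + (c + 6) * t = ((i : ℕ) + 1 + 1) * ((c + 6) * t) := by ring
      _ ≤ ((j : ℕ) + 1) * ((c + 6) * t) := Nat.mul_le_mul_right _ (by omega)
  have hwT : ∀ j : Fin k, w j + (c + 6) * t ≤ T := by
    intro j
    rw [hw, hT]
    have h5 : (j : ℕ) + 1 ≤ k := j.2
    calc ((j : ℕ) + 1) * ((c + 6) * t) + (c + 6) * t = ((j : ℕ) + 1 + 1) * ((c + 6) * t) := by ring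
      _ ≤ (k + 1) * ((c + 6) * t) := Nat.mul_le_mul_right _ (by omega)
      _ = (k + 1) * (c + 6) * t := by ring
  -- the functional
  obtain ⟨Bd, hBd⟩ : ∃ Bd : ((Fin k × Fin k) × (ℕ × ℕ)) → (ℕ → V) → ℝ, Bd = fun e p =>
    (if GG P π D R ((w e.1.2 + e.2.2) - (w e.1.1 + e.2.1)) (p (w e.1.1 + e.2.1))
      (p (w e.1.1 + e.2.1 + ((w e.1.2 + e.2.2) - (w e.1.1 + e.2.1)))) <
      ε * τ * π (p (w e.1.1 + e.2.1 + ((w e.1.2 + e.2.2) - (w e.1.1 + e.2.1)))) then 1 else 0) *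
    prd π D R ((w e.1.2 + e.2.2) - (w e.1.1 + e.2.1))
      (p (w e.1.1 + e.2.1 + ((w e.1.2 + e.2.2) - (w e.1.1 + e.2.1))))
      (fun i => p (w e.1.1 + e.2.1 + i)) := ⟨_, rfl⟩
  obtain ⟨Qe, hQe⟩ : ∃ Qe : ((Fin k × Fin k) × (ℕ × ℕ)) → (ℕ → V) → ℝ, Qe = fun e p =>
    (if p (w e.1.1 + e.2.1) =
      p (w e.1.1 + e.2.1 + ((w e.1.2 + e.2.2) - (w e.1.1 + e.2.1))) then 1 else 0) := ⟨_, rfl⟩
  obtain ⟨S, hS⟩ : ∃ S : Finset ((Fin k × Fin k) × (ℕ × ℕ)),
    S = (univ.filter fun e : Fin k × Fin k => e.1 < e.2) ×ˢ (range (L + 1) ×ˢ range (L + 1)) :=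
    ⟨_, rfl⟩
  have hmem : ∀ e : (Fin k × Fin k) × (ℕ × ℕ), e ∈ S ↔ e.1.1 < e.1.2 ∧ e.2.1 ≤ L ∧ e.2.2 ≤ L := by
    intro e
    rw [hS]
    simp only [mem_product, mem_filter, mem_univ, true_and, mem_range, Nat.lt_succ_iff]
  have hcard : (S.card : ℝ) ≤ (k : ℝ) ^ 2 * ((L + 1 : ℕ) : ℝ) ^ 2 := by
    have h5 : S.card ≤ k ^ 2 * (L + 1) ^ 2 := by
      rw [hS, card_product, card_product, card_range, ← sq]
      refine Nat.mul_le_mul_right _ ?_
      refine (card_filter_le _ _).trans ?_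
      rw [card_univ, Fintype.card_prod, Fintype.card_fin, ← sq]
    exact_mod_cast h5
  have hnum : ∀ e ∈ S, ∃ s : ℕ, t ≤ s ∧
      1 ≤ (w e.1.2 + e.2.2) - (w e.1.1 + e.2.1) ∧
      w e.1.1 + e.2.1 + ((w e.1.2 + e.2.2) - (w e.1.1 + e.2.1)) + s = T := by
    intro e he
    obtain ⟨k1, k2, k3⟩ := (hmem e).1 he
    have h5 := hwij _ _ k1
    have h6 := hwT e.1.2
    have ht1 : 1 ≤ t := hR.trans hRt
    refine ⟨T - (w e.1.2 + e.2.2), ?_, ?_, ?_⟩
    · omega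
    · omega
    · omega
  have hπz := hP.pos z
  -- the bound
  have hbd : ∀ e ∈ S, W P T v z (fun p => Bd e p + Qe e p) ≤ (ε + c₁) * (τ * π z) := by
    intro e he
    obtain ⟨s, hs1, hs2, hs3⟩ := hnum e he
    have hlin := (hLIN V P T v z).1 (Bd e) (Qe e)
    rw [hlin]
    have h5 := hBAD V P π hP D R (w e.1.1 + e.2.1) ((w e.1.2 + e.2.2) - (w e.1.1 + e.2.1)) s v z
      (ε * τ) (mul_nonneg hε.le hτ.le)
    have h6 := hEQP V P π hP (w e.1.1 + e.2.1) ((w e.1.2 + e.2.2) - (w e.1.1 + e.2.1)) s v z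
      c₁ τ hc₁ hτ.le (fun x => h1 _ hs2 x x) (fun y => h2 s hs1 y z)
    rw [hs3] at h5 h6
    have h7 : W P T v z (Bd e) ≤ ε * τ * π z := by rw [hBd]; exact h5
    have h8 : W P T v z (Qe e) ≤ c₁ * τ * π z := by rw [hQe]; exact h6
    calc W P T v z (Bd e) + W P T v z (Qe e) ≤ ε * τ * π z + c₁ * τ * π z := add_le_add h7 h8
      _ = (ε + c₁) * (τ * π z) := by ring
  have hsum : W P T v z (fun p => ∑ e ∈ S, (Bd e p + Qe e p)) < W P T v z (fun _ => 1) := by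
    have hlin := (hLIN V P T v z).2.2.1 _ S (fun e p => Bd e p + Qe e p)
    rw [hlin]
    have hτz : 0 < τ * π z := mul_pos hτ hπz
    have h5 : ∑ e ∈ S, W P T v z (fun p => Bd e p + Qe e p) ≤
        S.card * ((ε + c₁) * (τ * π z)) := by
      rw [← nsmul_eq_mul]
      exact sum_le_card_nsmul S _ _ hbd
    have h6 : (S.card : ℝ) * ((ε + c₁) * (τ * π z)) ≤
        (k : ℝ) ^ 2 * ((L + 1 : ℕ) : ℝ) ^ 2 * ((ε + c₁) * (τ * π z)) :=
      mul_le_mul_of_nonneg_right hcard (by positivity)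
    have h7 : (k : ℝ) ^ 2 * ((L + 1 : ℕ) : ℝ) ^ 2 * ((ε + c₁) * (τ * π z)) * K ≤ τ * π z := by
      have h8 : (k : ℝ) ^ 2 * ((L + 1 : ℕ) : ℝ) ^ 2 * (ε + c₁) * K ≤ 1 := by
        rw [hL]
        exact h4
      calc (k : ℝ) ^ 2 * ((L + 1 : ℕ) : ℝ) ^ 2 * ((ε + c₁) * (τ * π z)) * K =
          ((k : ℝ) ^ 2 * ((L + 1 : ℕ) : ℝ) ^ 2 * (ε + c₁) * K) * (τ * π z) := by ring
        _ ≤ 1 * (τ * π z) := mul_le_mul_of_nonneg_right h8 hτz.le
        _ = τ * π z := one_mul _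
    refine (h5.trans h6).trans_lt ?_
    have h8 : (k : ℝ) ^ 2 * ((L + 1 : ℕ) : ℝ) ^ 2 * ((ε + c₁) * (τ * π z)) * K <
        K * pw P T v z := h7.trans_lt h3
    rw [mul_comm K] at h8
    exact lt_of_mul_lt_mul_right h8 hK.le
  obtain ⟨p, hp0, hpT, hpP, hpF⟩ := hWEX V P T v z _ _ hP.nn hsum
  -- all terms vanish
  have hnn : ∀ e ∈ S, 0 ≤ Bd e p + Qe e p := by
    intro e _
    rw [hBd, hQe]
    refine add_nonneg (mul_nonneg ?_ ?_) ?_
    · split_ifs <;> norm_num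
    · rcases prd_01 π D R ((w e.1.2 + e.2.2) - (w e.1.1 + e.2.1))
        (p (w e.1.1 + e.2.1 + ((w e.1.2 + e.2.2) - (w e.1.1 + e.2.1))))
        (fun i => p (w e.1.1 + e.2.1 + i)) with h | h
      · exact le_of_eq h.symm
      · exact (zero_le_one.trans_eq h.symm)
    · dsimp only
      split_ifs <;> norm_num
  have hlt : ∀ e ∈ S, Bd e p + Qe e p < 1 := fun e he =>
    (single_le_sum hnn he).trans_lt hpF
  -- the records
  choose θ hθ1 hθ2 hθ3 using fun j : Fin k => hREC (fun s => π (p s)) D c R (w j)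
    (fun s => hP.pos _) hD (fun s s' => hπ _ _)
  have hθL : ∀ j, θ j ≤ w j + L := fun j => by rw [hL]; exact hθ2 j
  have key : ∀ i j : Fin k, i < j → θ i + 3 * t ≤ θ j ∧ θ j ≤ T ∧ p (θ i) ≠ p (θ j) ∧
      ε * τ * π (p (θ j)) ≤ GG P π D R (θ j - θ i) (p (θ i)) (p (θ j)) := by
    intro i j hij
    have a1 := hθ1 i
    have a2 := hθL i
    have a3 := hθ1 j
    have a4 := hθL j
    have a5 := hwij i j hij
    have a6 := hwT j
    have hsep : θ i + 3 * t ≤ θ j := by omega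
    obtain ⟨e, he⟩ : ∃ e : (Fin k × Fin k) × (ℕ × ℕ), e = ((i, j), (θ i - w i, θ j - w j)) :=
      ⟨_, rfl⟩
    have heS : e ∈ S := by
      rw [hmem, he]
      exact ⟨hij, by show θ i - w i ≤ L; omega, by show θ j - w j ≤ L; omega⟩
    have e1 : w e.1.1 + e.2.1 = θ i := by
      rw [he]
      show w i + (θ i - w i) = θ i
      omega
    have e2 : w e.1.2 + e.2.2 = θ j := by
      rw [he]
      show w j + (θ j - w j) = θ j
      omega
    have e3 : θ i + (θ j - θ i) = θ j := by omega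
    have h5 := hlt e heS
    have h6 := hnn e heS
    rw [hBd, hQe] at h5
    simp only [e1, e2, e3] at h5
    have hprd : prd π D R (θ j - θ i) (p (θ j)) (fun s => p (θ i + s)) = 1 := by
      unfold prd
      rw [if_pos]
      intro s hs1 hs2
      exact hθ3 j (θ i + s) (by omega) (by omega)
    rw [hprd, mul_one] at h5
    refine ⟨hsep, by omega, fun h => ?_, ?_⟩
    · rw [if_pos h] at h5
      have h7 : (0 : ℝ) ≤ if GG P π D R (θ j - θ i) (p (θ i)) (p (θ j)) < ε * τ * π (p (θ j))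
          then 1 else 0 := by split_ifs <;> norm_num
      linarith
    · by_contra hcon
      rw [if_pos (not_le.1 hcon)] at h5
      have h7 : (0 : ℝ) ≤ if p (θ i) = p (θ j) then 1 else 0 := by split_ifs <;> norm_num
      linarith
  refine ⟨fun j => p (θ j), θ, fun i j hij => ?_, fun i j hij => ?_⟩
  · rcases lt_trichotomy i j with h | h | h
    · exact absurd hij (key i j h).2.2.1
    · exact h
    · exact absurd hij.symm (key j i h).2.2.1
  · obtain ⟨b1, b2, -, b3⟩ := key i j hij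
    exact ⟨b1, by rw [← hT]; exact b2, b3⟩

end Pool.MRW
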